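import Mathlib
import Pool.Agent.H410R2.ENIface3
import Pool.Agent.H647R2.ACNT

/-!
EN7: for A with sum of |a|/phi(|a|) at most C log N, a positive proportion of the primes p < N has
no p - a prime (a in A).
-/

set_option autoImplicit false

open Finset Filter Topology

namespace Pool.Agent.H880R2.EN7

open Pool.Agent.H410R2.AC Pool.Agent.H410R2.EN Pool.Agent.H378R2 Pool.Agent.H647R2.ACNT

/-- coding of the positions -/
def E : ℤ ≃ ℕ := Equiv.intEquivNat

/-- the class of a position -/
def rh (p k : ℕ) : ℕ := ((E.symm k) % (p : ℤ)).toNat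

lemma rh_cast {p : ℕ} (hp : 0 < p) (k : ℕ) : (rh p k : ℤ) = (E.symm k) % (p : ℤ) := by
  unfold rh
  exact Int.toNat_of_nonneg (Int.emod_nonneg _ (by exact_mod_cast hp.ne'))

lemma rh_lt {p : ℕ} (hp : 0 < p) (k : ℕ) : rh p k < p := by
  have h1 := Int.emod_lt_of_pos (E.symm k) (by exact_mod_cast hp : (0 : ℤ) < p)
  rw [← rh_cast hp] at h1
  exact_mod_cast h1

lemma rh_iff {p : ℕ} (hp : 0 < p) (n k : ℕ) :
    n % p = rh p k ↔ (p : ℤ) ∣ (n : ℤ) - E.symm k := by
  rw [← Int.natCast_inj, rh_cast hp, Int.natCast_mod, Int.emod_eq_emod_iff_emod_sub_eq_zero,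
    Int.dvd_iff_emod_eq_zero]

lemma rh_eq {p : ℕ} (hp : 0 < p) {k l : ℕ} (h : rh p k = rh p l) :
    p ∣ (E.symm k - E.symm l).natAbs := by
  rw [← Int.natCast_inj, rh_cast hp, rh_cast hp, Int.emod_eq_emod_iff_emod_sub_eq_zero,
    ← Int.dvd_iff_emod_eq_zero] at h
  exact Int.natCast_dvd.1 h

lemma rh_zero {p : ℕ} (hp : 0 < p) {k : ℕ} (h : rh p k = 0) : p ∣ (E.symm k).natAbs := by
  rw [← Int.natCast_inj, rh_cast hp, Nat.cast_zero, ← Int.dvd_iff_emod_eq_zero] at h
  exact Int.natCast_dvd.1 h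

/-- the deviations are small -/
lemma dl_le {z0 z2 ps N K : ℕ} (hz0 : 2 ≤ z0) (hN : 1 ≤ N) {U : Finset ℕ} (hU : U.card ≤ K)
    (hUa : ∀ k ∈ U, E.symm k ≠ 0 ∧ (E.symm k).natAbs ≤ N) :
    dl (fun _ => 0) rh ((PP z0 z2).erase ps) U ≤
      2 / (z0 : ℝ) + ((K : ℝ) ^ 2 + K) * (Real.log ((2 * N : ℕ) : ℝ) / (z0 * Real.log z0)) := by
  classical
  set P := PP z0 z2 with hP
  set L : ℝ := Real.log ((2 * N : ℕ) : ℝ) / (z0 * Real.log z0) with hL
  have hL0 : 0 ≤ L := div_nonneg (Real.log_natCast_nonneg _)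
    (mul_nonneg (Nat.cast_nonneg _) (Real.log_natCast_nonneg _))
  have hPp : ∀ p ∈ P, p.Prime := fun p hp => (prime_of_PP hp).1
  have hterm : ∀ p ∈ P, (0 : ℝ) ≤ 1 / ((p : ℝ) - 1) := by
    intro p hp
    have : (2 : ℝ) ≤ p := by exact_mod_cast (hPp p hp).two_le
    have : (0 : ℝ) < (p : ℝ) - 1 := by linarith
    positivity
  unfold dl
  have h1 : ∑ p ∈ P.erase ps, (1 : ℝ) / ((p : ℝ) - 1) ^ 2 ≤ 2 / (z0 : ℝ) := by
    refine le_trans ?_ (nt4 z0 z2 (by omega))
    exact Finset.sum_le_sum_of_subset_of_nonneg (Finset.erase_subset _ _) (fun p _ _ => by positivity)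
  have h2 : ∑ p ∈ (P.erase ps).filter (fun p => (∃ a ∈ U, ∃ b ∈ U, a ≠ b ∧ rh p a = rh p b) ∨
      ∃ a ∈ U, rh p a = 0), (1 : ℝ) / ((p : ℝ) - 1) ≤ ((K : ℝ) ^ 2 + K) * L := by
    calc ∑ p ∈ (P.erase ps).filter (fun p => (∃ a ∈ U, ∃ b ∈ U, a ≠ b ∧ rh p a = rh p b) ∨
          ∃ a ∈ U, rh p a = 0), (1 : ℝ) / ((p : ℝ) - 1)
        ≤ ∑ p ∈ P.filter (fun p => (∃ a ∈ U, ∃ b ∈ U, a ≠ b ∧ rh p a = rh p b) ∨
          ∃ a ∈ U, rh p a = 0), (1 : ℝ) / ((p : ℝ) - 1) := by
          apply Finset.sum_le_sum_of_subset_of_nonneg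
          · exact Finset.filter_subset_filter _ (Finset.erase_subset _ _)
          · intro p hp _
            exact hterm p (Finset.mem_filter.1 hp).1
      _ = ∑ p ∈ P, if ((∃ a ∈ U, ∃ b ∈ U, a ≠ b ∧ rh p a = rh p b) ∨
          ∃ a ∈ U, rh p a = 0) then (1 : ℝ) / ((p : ℝ) - 1) else 0 := Finset.sum_filter _ _
      _ ≤ ∑ p ∈ P, (∑ x ∈ U.offDiag, (if p ∣ (E.symm x.1 - E.symm x.2).natAbs then
            (1 : ℝ) / ((p : ℝ) - 1) else 0) +
          ∑ a ∈ U, (if p ∣ (E.symm a).natAbs then (1 : ℝ) / ((p : ℝ) - 1) else 0)) := by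
          apply Finset.sum_le_sum
          intro p hp
          have hp0 := (hPp p hp).pos
          have ht := hterm p hp
          have hA : 0 ≤ ∑ x ∈ U.offDiag, (if p ∣ (E.symm x.1 - E.symm x.2).natAbs then
            (1 : ℝ) / ((p : ℝ) - 1) else 0) := Finset.sum_nonneg fun x _ => by
              split_ifs
              · exact ht
              · exact le_refl _
          have hB : 0 ≤ ∑ a ∈ U, (if p ∣ (E.symm a).natAbs then (1 : ℝ) / ((p : ℝ) - 1) else 0) :=
            Finset.sum_nonneg fun x _ => by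
              split_ifs
              · exact ht
              · exact le_refl _
          split_ifs with hc
          · rcases hc with ⟨a, ha, b, hb, hab, h⟩ | ⟨a, ha, h⟩
            · have hm : (a, b) ∈ U.offDiag := Finset.mem_offDiag.2 ⟨ha, hb, hab⟩
              have h3 := Finset.single_le_sum (f := fun x : ℕ × ℕ =>
                (if p ∣ (E.symm x.1 - E.symm x.2).natAbs then (1 : ℝ) / ((p : ℝ) - 1) else 0))
                (fun x _ => by
                  split_ifs
                  · exact ht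
                  · exact le_refl _) hm
              simp only [if_pos (rh_eq hp0 h)] at h3
              linarith
            · have h3 := Finset.single_le_sum (f := fun x : ℕ =>
                (if p ∣ (E.symm x).natAbs then (1 : ℝ) / ((p : ℝ) - 1) else 0))
                (fun x _ => by
                  split_ifs
                  · exact ht
                  · exact le_refl _) ha
              simp only [if_pos (rh_zero hp0 h)] at h3
              linarith
          · linarith
      _ = ∑ x ∈ U.offDiag, (∑ p ∈ P.filter (fun p => p ∣ (E.symm x.1 - E.symm x.2).natAbs),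
            (1 : ℝ) / ((p : ℝ) - 1)) +
          ∑ a ∈ U, ∑ p ∈ P.filter (fun p => p ∣ (E.symm a).natAbs), (1 : ℝ) / ((p : ℝ) - 1) := by
          rw [Finset.sum_add_distrib, Finset.sum_comm, Finset.sum_comm (s := P) (t := U)]
          simp only [Finset.sum_filter]
      _ ≤ ∑ x ∈ U.offDiag, L + ∑ a ∈ U, L := by
          apply add_le_add
          · apply Finset.sum_le_sum
            rintro ⟨a, b⟩ hx
            rw [Finset.mem_offDiag] at hx
            obtain ⟨ha, hb, hab⟩ := hx
            apply nt5 z0 z2 _ _ hz0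
            · have : E.symm a - E.symm b ≠ 0 := fun h => hab (E.symm.injective (sub_eq_zero.1 h))
              change 1 ≤ (E.symm a - E.symm b).natAbs
              omega
            · have h3 := (hUa a ha).2
              have h4 := (hUa b hb).2
              change (E.symm a - E.symm b).natAbs ≤ 2 * N
              omega
          · apply Finset.sum_le_sum
            intro a ha
            apply nt5 z0 z2 _ _ hz0
            · have := (hUa a ha).1
              omega
            · have h3 := (hUa a ha).2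
              omega
      _ = (U.offDiag.card + U.card : ℝ) * L := by
          rw [Finset.sum_const, Finset.sum_const, nsmul_eq_mul, nsmul_eq_mul]
          ring
      _ ≤ ((K : ℝ) ^ 2 + K) * L := by
          apply mul_le_mul_of_nonneg_right _ hL0
          have h3 : U.offDiag.card ≤ K ^ 2 := by
            rw [Finset.offDiag_card]
            calc U.card * U.card - U.card ≤ U.card * U.card := Nat.sub_le _ _
              _ ≤ K * K := Nat.mul_le_mul hU hU
              _ = K ^ 2 := by ring
          have h4 : (U.offDiag.card : ℝ) ≤ (K : ℝ) ^ 2 := by exact_mod_cast h3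
          have h5 : (U.card : ℝ) ≤ K := by exact_mod_cast hU
          linarith
  exact add_le_add h1 h2

/-- at least half of the indices have at most twice the average -/
lemma good_half {ι : Type*} (R : Finset ι) (f : ι → ℝ) {T : ℝ} (hT : 0 < T) (hf : ∀ b ∈ R, 0 ≤ f b)
    (h : ∑ b ∈ R, f b ≤ T * R.card) : (R.card : ℝ) / 2 ≤ (R.filter (fun b => f b ≤ 2 * T)).card := by
  classical
  have h1 : ((R.filter (fun b => ¬ f b ≤ 2 * T)).card : ℝ) * (2 * T) ≤ T * R.card := by
    calc ((R.filter (fun b => ¬ f b ≤ 2 * T)).card : ℝ) * (2 * T)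
        = ∑ b ∈ R.filter (fun b => ¬ f b ≤ 2 * T), 2 * T := by
          rw [Finset.sum_const, nsmul_eq_mul]
      _ ≤ ∑ b ∈ R.filter (fun b => ¬ f b ≤ 2 * T), f b := by
          apply Finset.sum_le_sum
          intro b hb
          exact (not_le.1 (Finset.mem_filter.1 hb).2).le
      _ ≤ ∑ b ∈ R, f b := Finset.sum_le_sum_of_subset_of_nonneg (Finset.filter_subset _ _)
          (fun b hb _ => hf b hb)
      _ ≤ _ := h
  have h2 : ((R.filter (fun b => f b ≤ 2 * T)).card : ℝ) +
      (R.filter (fun b => ¬ f b ≤ 2 * T)).card = R.card := by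
    exact_mod_cast Finset.card_filter_add_card_filter_not (s := R) (fun b => f b ≤ 2 * T)
  nlinarith

lemma Phi_nonneg (u : ℝ) : 0 ≤ Phi u := le_max_left _ _

lemma Phi_le (u : ℝ) : Phi u ≤ 1 := by
  unfold Phi
  apply max_le (by norm_num)
  have := abs_nonneg (Real.log u - 1 / 2)
  linarith

lemma Phi_three : Phi 3 = 0 := by
  unfold Phi
  apply max_eq_left
  have h : 1 ≤ Real.log 3 := by
    rw [Real.le_log_iff_exp_le (by norm_num)]
    have := Real.exp_one_lt_d9
    linarith
  have := le_abs_self (Real.log 3 - 1 / 2)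
  linarith

/-- the weight of one integer -/
noncomputable def vv (X : ℝ) (n : ℕ) : ℝ := Phi (n / X) * ArithmeticFunction.vonMangoldt n

lemma vv_nonneg (X : ℝ) (n : ℕ) : 0 ≤ vv X n :=
  mul_nonneg (Phi_nonneg _) ArithmeticFunction.vonMangoldt_nonneg

lemma vv_le (X : ℝ) (n : ℕ) : vv X n ≤ ArithmeticFunction.vonMangoldt n := by
  unfold vv
  have h1 := Phi_le (n / X)
  have h2 : 0 ≤ ArithmeticFunction.vonMangoldt n := ArithmeticFunction.vonMangoldt_nonneg
  nlinarith

/-- counting integers near one of the positions -/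
lemma near_card (N z : ℕ) (a : ℤ) :
    ((range (N + 1)).filter (fun m : ℕ => ((m : ℤ) - a).natAbs ≤ z)).card ≤ 2 * z + 1 := by
  have h1 : ((range (N + 1)).filter (fun m : ℕ => ((m : ℤ) - a).natAbs ≤ z)).image
      (fun m : ℕ => (m : ℤ)) ⊆ Finset.Icc (a - z) (a + z) := by
    intro y hy
    rw [Finset.mem_image] at hy
    obtain ⟨m, hm, rfl⟩ := hy
    have h2 := (Finset.mem_filter.1 hm).2
    rw [Finset.mem_Icc]
    omega
  have h2 := Finset.card_le_card h1
  rw [Finset.card_image_of_injective _ Nat.cast_injective, Int.card_Icc] at h2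
  omega

/-- from the mass of the good integers to the number of good primes -/
lemma mass_le {N z : ℕ} (hN : 1 ≤ N) {X : ℝ} (hX : X = N / 3) (A : Finset ℤ)
    (good : ℕ → Prop) [DecidablePred good]
    (hg : ∀ m, good m → ∀ a ∈ A, ((m : ℤ) - a).natAbs.Prime → ((m : ℤ) - a).natAbs ≤ z) :
    ∑ m ∈ (range (N + 1)).filter good, vv X m ≤
      (((range N).filter (fun p : ℕ => p.Prime ∧ ∀ a ∈ A, ¬ ((p : ℤ) - a).natAbs.Prime)).card : ℝ) *
        Real.log N + 2 * Real.sqrt N * Real.log N + A.card * ((2 * z + 1 : ℕ) * Real.log N) := by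
  classical
  have hN1 : (1 : ℝ) ≤ N := by exact_mod_cast hN
  have hlN : 0 ≤ Real.log N := Real.log_nonneg hN1
  set T0 := (range N).filter (fun p : ℕ => p.Prime ∧ ∀ a ∈ A, ¬ ((p : ℤ) - a).natAbs.Prime) with hT0
  have hpt : ∀ m ∈ (range (N + 1)).filter good, vv X m ≤
      (if m ∈ T0 then Real.log N else 0) +
      (if ¬ m.Prime then ArithmeticFunction.vonMangoldt m else 0) +
      ∑ a ∈ A, (if ((m : ℤ) - a).natAbs ≤ z then Real.log N else 0) := by
    intro m hm
    rw [Finset.mem_filter, Finset.mem_range] at hm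
    obtain ⟨hmN, hgm⟩ := hm
    have h3 : 0 ≤ ∑ a ∈ A, (if ((m : ℤ) - a).natAbs ≤ z then Real.log N else 0) :=
      Finset.sum_nonneg fun a _ => by
        split_ifs
        · exact hlN
        · exact le_refl _
    have h1 : (0 : ℝ) ≤ (if m ∈ T0 then Real.log N else 0) := by
      split_ifs
      · exact hlN
      · exact le_refl _
    by_cases hp : m.Prime
    · rw [if_neg (not_not.2 hp), add_zero]
      have hlm : vv X m ≤ Real.log N := by
        refine (vv_le X m).trans ?_
        rw [ArithmeticFunction.vonMangoldt_apply_prime hp]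
        apply Real.log_le_log (by exact_mod_cast hp.pos)
        exact_mod_cast (by omega : m ≤ N)
      rcases Nat.lt_or_ge m N with hlt | hge
      · by_cases hall : ∀ a ∈ A, ¬ ((m : ℤ) - a).natAbs.Prime
        · have hmT : m ∈ T0 := by
            rw [hT0, Finset.mem_filter, Finset.mem_range]
            exact ⟨hlt, hp, hall⟩
          rw [if_pos hmT]
          linarith
        · push Not at hall
          obtain ⟨a, ha, hpa⟩ := hall
          have h4 := Finset.single_le_sum (f := fun a : ℤ =>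
            (if ((m : ℤ) - a).natAbs ≤ z then Real.log N else 0)) (fun a _ => by
              split_ifs
              · exact hlN
              · exact le_refl _) ha
          simp only [if_pos (hg m hgm a ha hpa)] at h4
          linarith
      · have hmN' : m = N := by omega
        have h5 : vv X m = 0 := by
          unfold vv
          have h6 : (m : ℝ) / X = 3 := by
            rw [hmN', hX]
            field_simp
          rw [h6, Phi_three, zero_mul]
        rw [h5]
        linarith
    · rw [if_pos hp]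
      have := vv_le X m
      linarith
  refine (Finset.sum_le_sum hpt).trans ?_
  rw [Finset.sum_add_distrib, Finset.sum_add_distrib]
  apply add_le_add (add_le_add _ _)
  · rw [Finset.sum_comm]
    have : ∀ a ∈ A, ∑ m ∈ (range (N + 1)).filter good,
        (if ((m : ℤ) - a).natAbs ≤ z then Real.log N else 0) ≤ (2 * z + 1 : ℕ) * Real.log N := by
      intro a _
      calc ∑ m ∈ (range (N + 1)).filter good, (if ((m : ℤ) - a).natAbs ≤ z then Real.log N else 0)
          ≤ ∑ m ∈ range (N + 1), (if ((m : ℤ) - a).natAbs ≤ z then Real.log N else 0) := by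
            apply Finset.sum_le_sum_of_subset_of_nonneg (Finset.filter_subset _ _)
            intro m _ _
            split_ifs
            · exact hlN
            · exact le_refl _
        _ = (((range (N + 1)).filter (fun m : ℕ => ((m : ℤ) - a).natAbs ≤ z)).card : ℝ) *
            Real.log N := by
            rw [← Finset.sum_filter, Finset.sum_const, nsmul_eq_mul]
        _ ≤ _ := by
            apply mul_le_mul_of_nonneg_right _ hlN
            exact_mod_cast near_card N z a
    refine (Finset.sum_le_sum this).trans ?_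
    rw [Finset.sum_const, nsmul_eq_mul]
  · calc ∑ m ∈ (range (N + 1)).filter good, (if m ∈ T0 then Real.log N else 0)
        ≤ ∑ m ∈ range (N + 1), (if m ∈ T0 then Real.log N else 0) := by
          apply Finset.sum_le_sum_of_subset_of_nonneg (Finset.filter_subset _ _)
          intro m _ _
          split_ifs
          · exact hlN
          · exact le_refl _
      _ = (((range (N + 1)).filter (fun m => m ∈ T0)).card : ℝ) * Real.log N := by
          rw [← Finset.sum_filter, Finset.sum_const, nsmul_eq_mul]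
      _ ≤ _ := by
          apply mul_le_mul_of_nonneg_right _ hlN
          have : ((range (N + 1)).filter (fun m => m ∈ T0)).card ≤ T0.card :=
            Finset.card_le_card fun m hm => (Finset.mem_filter.1 hm).2
          exact_mod_cast this
  · calc ∑ m ∈ (range (N + 1)).filter good,
          (if ¬ m.Prime then ArithmeticFunction.vonMangoldt m else 0)
        ≤ ∑ m ∈ range (N + 1), (if ¬ m.Prime then ArithmeticFunction.vonMangoldt m else 0) := by
          apply Finset.sum_le_sum_of_subset_of_nonneg (Finset.filter_subset _ _)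
          intro m _ _
          split_ifs
          · exact le_refl _
          · exact ArithmeticFunction.vonMangoldt_nonneg
      _ = ∑ m ∈ Finset.Ioc 0 N, (if ¬ m.Prime then ArithmeticFunction.vonMangoldt m else 0) := by
          symm
          apply Finset.sum_subset
          · intro m hm
            rw [Finset.mem_Ioc] at hm
            rw [Finset.mem_range]
            omega
          · intro m hm hm'
            rw [Finset.mem_range] at hm
            rw [Finset.mem_Ioc] at hm'
            have : m = 0 := by omega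
            rw [this]
            simp
      _ = Chebyshev.psi N - Chebyshev.theta N := by
          rw [Chebyshev.psi_sub_theta_eq_sum_not_prime, Nat.floor_natCast, Finset.sum_filter]
      _ ≤ _ := Chebyshev.psi_sub_theta_le hN1

/-- interchange of the averages over classes and positions -/
lemma avg_sum {A : Finset ℤ} {R : Finset ℕ} (Pr : ℕ → ℤ → Prop) [∀ b a, Decidable (Pr b a)]
    (l T : ℝ) (w : ℤ → ℝ)
    (h : ∀ a ∈ A, ((R.filter (fun b => Pr b a)).card : ℝ) * l ≤ T * w a) :
    ∑ b ∈ R, ((A.filter (fun a => Pr b a)).card : ℝ) * l ≤ T * ∑ a ∈ A, w a := by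
  have h1 : ∑ b ∈ R, ((A.filter (fun a => Pr b a)).card : ℝ) =
      ∑ a ∈ A, ((R.filter (fun b => Pr b a)).card : ℝ) := by
    simp only [Finset.card_filter, Nat.cast_sum]
    rw [Finset.sum_comm]
  rw [← Finset.sum_mul, h1, Finset.sum_mul, Finset.mul_sum]
  exact Finset.sum_le_sum h

/-- every integer is counted for at most one class -/
lemma class_sum {M Q : ℕ} (G : Finset ℕ) (v : ℕ → ℝ) (hv : ∀ m, 0 ≤ v m)
    (gb : ℕ → ℕ → Prop) [∀ b, DecidablePred (gb b)] (good : ℕ → Prop) [DecidablePred good]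
    (h : ∀ b ∈ G, ∀ m < M, m % Q = b → gb b m → good m) :
    ∑ b ∈ G, ∑ m ∈ (range M).filter (gb b), (if m % Q = b then v m else 0) ≤
      ∑ m ∈ (range M).filter good, v m := by
  classical
  simp only [Finset.sum_filter]
  rw [Finset.sum_comm]
  apply Finset.sum_le_sum
  intro m hm
  rw [Finset.mem_range] at hm
  by_cases hgm : good m
  · rw [if_pos hgm]
    calc ∑ b ∈ G, (if gb b m then (if m % Q = b then v m else 0) else 0)
        ≤ ∑ b ∈ G, (if m % Q = b then v m else 0) := by
          apply Finset.sum_le_sum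
          intro b _
          split_ifs
          · exact le_refl _
          · exact le_refl _
          · exact hv m
          · exact le_refl _
      _ ≤ v m := by
          rw [Finset.sum_ite_eq]
          split_ifs
          · exact le_refl _
          · exact hv m
  · rw [if_neg hgm]
    apply le_of_eq
    apply Finset.sum_eq_zero
    intro b hb
    split_ifs with h1 h2
    · exact absurd (h b hb m hm h2 h1) hgm
    · rfl
    · rfl

lemma PW_prop {X : ℝ} {S : Finset ℕ} {ps p : ℕ} (hp : p ∈ PW X S ps) : p.Prime ∧ p ≤ yy X := by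
  unfold PW at hp
  rw [Finset.mem_filter, Finset.mem_Icc] at hp
  exact ⟨hp.2.1, hp.1.2⟩

lemma WW_pos (X : ℝ) (S : Finset ℕ) (ps : ℕ) : 0 < WW X S ps :=
  Finset.prod_pos fun _ hp => (PW_prop hp).1.pos

lemma dens_kP (z0 z2 ps : ℕ) : Dens kP (fun _ => 0) ((PP z0 z2).erase ps) := by
  intro p hp c _
  have hpp := (prime_of_PP (Finset.mem_of_mem_erase hp)).1
  have h2 : (2 : ℝ) ≤ p := by exact_mod_cast hpp.two_le
  have h3 : (0 : ℝ) < (p : ℝ) - 1 := by linarith
  unfold kP
  refine ⟨?_, ?_, ?_⟩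
  · split_ifs
    · exact le_refl _
    · positivity
  · split_ifs
    · positivity
    · exact le_refl _
  · intro hc
    rw [if_neg hc]
    have h4 : 1 / ((p : ℝ) - 1) - 1 / (p : ℝ) = 1 / ((p : ℝ) * ((p : ℝ) - 1)) := by
      field_simp
      ring
    rw [h4, abs_of_nonneg (by positivity)]
    apply one_div_le_one_div_of_le (by positivity)
    rw [sq]
    apply mul_le_mul_of_nonneg_right _ h3.le
    linarith

/-- the numbers attached to the positions have size at most `2 N` -/
lemma hsize {N z0 z2 ps m : ℕ} {k : ℕ} (hm : m ≤ N) (hk : (E.symm k).natAbs ≤ N) :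
    (∏ p ∈ ((PP z0 z2).erase ps).filter (fun p => m % p = rh p k), (p : ℝ)) ≤ (2 * N : ℕ) ∨
      ∀ p ∈ (PP z0 z2).erase ps, m % p = rh p k := by
  by_cases h : (m : ℤ) - E.symm k = 0
  · right
    intro p hp
    have hpp := (prime_of_PP (Finset.mem_of_mem_erase hp)).1
    rw [rh_iff hpp.pos, h]
    exact dvd_zero _
  · left
    have h1 : ∏ p ∈ ((PP z0 z2).erase ps).filter (fun p => m % p = rh p k), p ∣
        ((m : ℤ) - E.symm k).natAbs := by
      apply Finset.prod_primes_dvd
      · intro p hp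
        exact ((prime_of_PP (Finset.mem_of_mem_erase (Finset.mem_filter.1 hp).1)).1).prime
      · intro p hp
        rw [Finset.mem_filter] at hp
        have hpp := (prime_of_PP (Finset.mem_of_mem_erase hp.1)).1
        exact Int.natCast_dvd.1 ((rh_iff hpp.pos m k).1 hp.2)
    have h2 := Nat.le_of_dvd (by omega) h1
    have h3 : ((m : ℤ) - E.symm k).natAbs ≤ 2 * N := by omega
    have h4 := h2.trans h3
    have h5 : ((∏ p ∈ ((PP z0 z2).erase ps).filter (fun p => m % p = rh p k), p : ℕ) : ℝ) ≤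
      ((2 * N : ℕ) : ℝ) := by exact_mod_cast h4
    rwa [Nat.cast_prod] at h5

/-- the real inequalities which hold for large `N` -/
lemma ev_log (c : ℝ) (hc : 0 < c) (e : ℝ) (he : 0 < e) :
    ∀ᶠ N : ℕ in atTop, Real.log N ≤ c * (N : ℝ) ^ e := by
  have h1 : ∀ᶠ x : ℝ in atTop, Real.log x ≤ c * x ^ e := by
    have := (isLittleO_log_rpow_atTop he).bound hc
    filter_upwards [this, eventually_ge_atTop (1 : ℝ)] with x hx hx1
    simp only [Real.norm_eq_abs] at hx
    rw [abs_of_nonneg (by positivity : (0 : ℝ) ≤ x ^ e)] at hx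
    exact (le_abs_self _).trans hx
  exact tendsto_natCast_atTop_atTop.eventually h1

lemma ev_final (C1 d : ℝ) (hC1 : 1 ≤ C1) (hd : 0 < d) : ∀ᶠ N : ℕ in atTop,
    2 * Real.sqrt N * Real.log N +
      C1 * Real.log N * ((2 * ⌊((N : ℝ) / 3) ^ (1 / 100 : ℝ)⌋₊ + 1 : ℕ) * Real.log N) ≤ d * N := by
  set δ : ℝ := min 1 (d / (2 + 3 * C1)) with hδ
  have hδ0 : 0 < δ := lt_min one_pos (by positivity)
  have hδ1 : δ ≤ 1 := min_le_left _ _
  have hδ2 : δ * (2 + 3 * C1) ≤ d := by
    have : δ ≤ d / (2 + 3 * C1) := min_le_right _ _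
    rwa [le_div_iff₀ (by positivity)] at this
  filter_upwards [ev_log δ hδ0 (1 / 10) (by norm_num), eventually_ge_atTop 1] with N hN hN1
  have hN1' : (1 : ℝ) ≤ N := by exact_mod_cast hN1
  have hN0 : (0 : ℝ) < N := by linarith
  have hl : 0 ≤ Real.log N := Real.log_nonneg hN1'
  have h1 : Real.sqrt N * Real.log N ≤ δ * N := by
    rw [Real.sqrt_eq_rpow]
    calc (N : ℝ) ^ (1 / 2 : ℝ) * Real.log N ≤ (N : ℝ) ^ (1 / 2 : ℝ) * (δ * (N : ℝ) ^ (1 / 10 : ℝ)) :=
          mul_le_mul_of_nonneg_left hN (by positivity)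
      _ = δ * (N : ℝ) ^ (1 / 2 + 1 / 10 : ℝ) := by rw [Real.rpow_add hN0]; ring
      _ ≤ δ * (N : ℝ) ^ (1 : ℝ) := by
          apply mul_le_mul_of_nonneg_left _ hδ0.le
          exact Real.rpow_le_rpow_of_exponent_le hN1' (by norm_num)
      _ = δ * N := by rw [Real.rpow_one]
  have h2 : ((2 * ⌊((N : ℝ) / 3) ^ (1 / 100 : ℝ)⌋₊ + 1 : ℕ) : ℝ) ≤ 3 * (N : ℝ) ^ (1 / 100 : ℝ) := by
    push_cast
    have h3 : (⌊((N : ℝ) / 3) ^ (1 / 100 : ℝ)⌋₊ : ℝ) ≤ ((N : ℝ) / 3) ^ (1 / 100 : ℝ) :=
      Nat.floor_le (by positivity)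
    have h4 : ((N : ℝ) / 3) ^ (1 / 100 : ℝ) ≤ (N : ℝ) ^ (1 / 100 : ℝ) :=
      Real.rpow_le_rpow (by positivity) (by linarith) (by norm_num)
    have h5 : (1 : ℝ) ≤ (N : ℝ) ^ (1 / 100 : ℝ) := Real.one_le_rpow hN1' (by norm_num)
    linarith
  have h6 : Real.log N * Real.log N * (N : ℝ) ^ (1 / 100 : ℝ) ≤ δ * N := by
    calc Real.log N * Real.log N * (N : ℝ) ^ (1 / 100 : ℝ)
        ≤ (δ * (N : ℝ) ^ (1 / 10 : ℝ)) * (δ * (N : ℝ) ^ (1 / 10 : ℝ)) * (N : ℝ) ^ (1 / 100 : ℝ) := by
          apply mul_le_mul_of_nonneg_right _ (by positivity)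
          exact mul_le_mul hN hN hl (by positivity)
      _ = δ * (δ * (N : ℝ) ^ (1 / 10 + 1 / 10 + 1 / 100 : ℝ)) := by
          rw [Real.rpow_add hN0, Real.rpow_add hN0]; ring
      _ ≤ δ * (1 * (N : ℝ) ^ (1 : ℝ)) := by
          apply mul_le_mul_of_nonneg_left _ hδ0.le
          apply mul_le_mul hδ1 _ (by positivity) (by norm_num)
          exact Real.rpow_le_rpow_of_exponent_le hN1' (by norm_num)
      _ = δ * N := by rw [Real.rpow_one, one_mul]
  calc 2 * Real.sqrt N * Real.log N +
      C1 * Real.log N * ((2 * ⌊((N : ℝ) / 3) ^ (1 / 100 : ℝ)⌋₊ + 1 : ℕ) * Real.log N)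
      ≤ 2 * (Real.sqrt N * Real.log N) +
        C1 * Real.log N * ((3 * (N : ℝ) ^ (1 / 100 : ℝ)) * Real.log N) := by
        have h7 : C1 * Real.log N * (((2 * ⌊((N : ℝ) / 3) ^ (1 / 100 : ℝ)⌋₊ + 1 : ℕ) : ℝ) * Real.log N) ≤
            C1 * Real.log N * ((3 * (N : ℝ) ^ (1 / 100 : ℝ)) * Real.log N) := by
          apply mul_le_mul_of_nonneg_left _ (by positivity)
          exact mul_le_mul_of_nonneg_right h2 hl
        linarith
    _ = 2 * (Real.sqrt N * Real.log N) +
        3 * C1 * (Real.log N * Real.log N * (N : ℝ) ^ (1 / 100 : ℝ)) := by ring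
    _ ≤ 2 * (δ * N) + 3 * C1 * (δ * N) := by
        apply add_le_add
        · linarith
        · exact mul_le_mul_of_nonneg_left h6 (by positivity)
    _ = (δ * (2 + 3 * C1)) * N := by ring
    _ ≤ d * N := mul_le_mul_of_nonneg_right hδ2 hN0.le

lemma tendsto_X : Tendsto (fun N : ℕ => (N : ℝ) / 3) atTop atTop :=
  (tendsto_natCast_atTop_atTop).atTop_div_const (by norm_num)

lemma tendsto_yy : Tendsto (fun N : ℕ => yy ((N : ℝ) / 3)) atTop atTop := by
  unfold yy
  exact tendsto_nat_floor_atTop.comp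
    ((Real.tendsto_log_atTop.comp tendsto_X).atTop_div_const (by norm_num))

lemma ev_z0 (K : ℕ) (hK : 1 ≤ K) : ∀ᶠ z : ℕ in atTop,
    2 / (z : ℝ) + ((K : ℝ) ^ 2 + K) * (4000 / Real.log z) ≤ 1 / K := by
  have hK0 : (0 : ℝ) < K := by exact_mod_cast hK
  have h1 : Tendsto (fun z : ℕ => 2 / (z : ℝ) + ((K : ℝ) ^ 2 + K) * (4000 / Real.log z)) atTop
      (𝓝 (0 + ((K : ℝ) ^ 2 + K) * 0)) := by
    apply Tendsto.add
    · exact tendsto_const_div_atTop_nhds_zero_nat 2
    · apply Tendsto.const_mul
      exact tendsto_const_nhds.div_atTop (Real.tendsto_log_atTop.comp tendsto_natCast_atTop_atTop)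
  rw [mul_zero, add_zero] at h1
  exact h1.eventually_le_const (by positivity)

theorem pFinal_of (hcore : CoreW) (hpe : PrimeEq) (havg : AvgB) : PFinal := by
  classical
  intro C
  set C1 : ℝ := max C 1 with hC1
  have hC11 : 1 ≤ C1 := le_max_right _ _
  obtain ⟨C', Xa, hC', havg⟩ := havg
  obtain ⟨c1, hc1, hpe⟩ := hpe
  set Cc : ℝ := 4 * (C' * C1) with hCc
  have hCC : 1 ≤ C' * C1 := by nlinarith
  have hCc4 : 4 ≤ Cc := by rw [hCc]; linarith
  obtain ⟨c, hc, K, hK, Xc, hcore⟩ := hcore Cc (1 / 100) (by linarith) (by norm_num) (by norm_num)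
  obtain ⟨Xp, hpe⟩ := hpe K
  refine ⟨c * c1 / 12, by positivity, ?_⟩
  have ev : ∀ᶠ N : ℕ in atTop, (max (max Xa Xp) (max Xc 10) ≤ (N : ℝ) / 3 ∧
      yy ((N : ℝ) / 3) ≤ ⌊((N : ℝ) / 3) ^ (1 / 100 : ℝ)⌋₊ ∧ max K 2 ≤ yy ((N : ℝ) / 3)) ∧
      (2 / (yy ((N : ℝ) / 3) : ℝ) + ((K : ℝ) ^ 2 + K) * (4000 / Real.log (yy ((N : ℝ) / 3))) ≤ 1 / K ∧
      2 * Real.sqrt N * Real.log N +
        C1 * Real.log N * ((2 * ⌊((N : ℝ) / 3) ^ (1 / 100 : ℝ)⌋₊ + 1 : ℕ) * Real.log N) ≤
          (c * c1 / 12) * N) := by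
    refine (((tendsto_X.eventually_ge_atTop _).and (?_)).and ?_)
    · refine Eventually.and ?_ (tendsto_yy.eventually_ge_atTop _)
      have h1 : ∀ᶠ x : ℝ in atTop, Real.log x ≤ 1 * x ^ (1 / 100 : ℝ) := by
        have := (isLittleO_log_rpow_atTop (r := (1 / 100 : ℝ)) (by norm_num)).bound one_pos
        filter_upwards [this, eventually_ge_atTop (1 : ℝ)] with x hx hx1
        simp only [Real.norm_eq_abs] at hx
        rw [abs_of_nonneg (by positivity : (0 : ℝ) ≤ x ^ (1 / 100 : ℝ))] at hx
        exact (le_abs_self _).trans hx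
      filter_upwards [tendsto_X.eventually h1, tendsto_X.eventually_ge_atTop 1] with N h1 h2
      unfold yy
      apply Nat.floor_le_floor
      have h3 := Real.log_nonneg h2
      linarith
    · exact (tendsto_yy.eventually (ev_z0 K hK)).and (ev_final C1 (c * c1 / 12) hC11 (by positivity))
  obtain ⟨N0, hN0⟩ := eventually_atTop.1 ev
  refine ⟨N0, fun N hN A hA hsum => ?_⟩
  obtain ⟨⟨hX, hyz, hKy⟩, hdl, hfin⟩ := hN0 N hN
  set X : ℝ := (N : ℝ) / 3 with hXdef
  have hXa : Xa ≤ X := ((le_max_left _ _).trans (le_max_left _ _)).trans hX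
  have hXp : Xp ≤ X := ((le_max_right _ _).trans (le_max_left _ _)).trans hX
  have hXc : Xc ≤ X := ((le_max_left _ _).trans (le_max_right _ _)).trans hX
  have hX10 : 10 ≤ X := ((le_max_right _ _).trans (le_max_right _ _)).trans hX
  have hX0 : 0 < X := by linarith
  have hNX : (N : ℝ) = 3 * X := by rw [hXdef]; ring
  have hN30 : (30 : ℝ) ≤ N := by rw [hNX]; linarith
  have hN1 : 1 ≤ N := by
    have : (1 : ℝ) ≤ N := by linarith
    exact_mod_cast this
  have hfl : ⌊3 * X⌋₊ = N := by rw [← hNX]; exact Nat.floor_natCast N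
  have hKy1 : K ≤ yy X := (le_max_left _ _).trans hKy
  have hKy2 : 2 ≤ yy X := (le_max_right _ _).trans hKy
  set z0 := yy X with hz0
  set z2 := ⌊X ^ (1 / 100 : ℝ)⌋₊ with hz2
  have hlX : 0 < Real.log X := Real.log_pos (by linarith)
  have hz0log : (z0 : ℝ) ≤ Real.log X := by
    have : (z0 : ℝ) ≤ Real.log X / 1000 := Nat.floor_le (by positivity)
    linarith
  have hz0pos : (0 : ℝ) < z0 := by exact_mod_cast (by omega : 0 < z0)
  have hlz0 : 0 < Real.log z0 := Real.log_pos (by exact_mod_cast (by omega : 1 < z0))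
  have hX3 : 6 * X ≤ X ^ (2 : ℕ) := by nlinarith
  have hlog2N : Real.log ((2 * N : ℕ) : ℝ) ≤ 2 * Real.log X := by
    have h2 : ((2 * N : ℕ) : ℝ) = 6 * X := by push_cast; rw [hNX]; ring
    rw [h2]
    calc Real.log (6 * X) ≤ Real.log (X ^ (2 : ℕ)) := Real.log_le_log (by positivity) hX3
      _ = 2 * Real.log X := by rw [Real.log_pow]; push_cast; ring
  have hlN : 0 ≤ Real.log N := Real.log_natCast_nonneg _
  have hlogN : Real.log N ≤ 2 * Real.log X := by
    refine le_trans ?_ hlog2N
    apply Real.log_le_log (by linarith)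
    push_cast
    linarith
  have hlNpos : 0 < Real.log N := Real.log_pos (by linarith)
  -- the weights
  obtain ⟨hPsi, ps, S, hps, hS, err, hEq, hET⟩ := hpe X hXp
  set Q := WW X S ps with hQ
  have hQ0 : 0 < Q := WW_pos _ _ _
  have hphi : (0 : ℝ) < Q.totient := by exact_mod_cast Nat.totient_pos.2 hQ0
  -- the average
  set R := (range Q).filter (fun b => b.Coprime Q) with hR
  have hRcard : R.card = Q.totient := by
    rw [Nat.totient_eq_card_coprime, hR]
    congr 1
    apply Finset.filter_congr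
    intro b _
    exact Nat.coprime_comm
  set Pr : ℕ → ℤ → Prop := fun b a => ∀ p ∈ PW X S ps, ¬ (p : ℤ) ∣ (b : ℤ) - a with hPr
  have hsumA : ∑ b ∈ R, ((A.filter (fun a => Pr b a)).card : ℝ) * Real.log z0 ≤
      (C' * C1 * Real.log N) * R.card := by
    have h1 := avg_sum (A := A) (R := R) Pr (Real.log z0) (C' * Q.totient)
      (fun a => (a.natAbs : ℝ) / (a.natAbs.totient : ℝ)) (by
        intro a ha
        have h2 := havg X hXa ps S hps hS a (hA a ha).2
        rw [hR, Finset.filter_filter]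
        exact h2)
    refine h1.trans ?_
    rw [hRcard]
    have h3 : ∑ a ∈ A, ((a.natAbs : ℝ) / (Nat.totient a.natAbs : ℝ)) ≤ C1 * Real.log N :=
      hsum.trans (mul_le_mul_of_nonneg_right (le_max_left _ _) hlN)
    calc C' * (Q.totient : ℝ) * ∑ a ∈ A, ((a.natAbs : ℝ) / (Nat.totient a.natAbs : ℝ))
        ≤ C' * (Q.totient : ℝ) * (C1 * Real.log N) := mul_le_mul_of_nonneg_left h3 (by positivity)
      _ = _ := by ring
  have hT : 0 < C' * C1 * Real.log N := by positivity
  have hhalf := good_half R (fun b => ((A.filter (fun a => Pr b a)).card : ℝ) * Real.log z0) hT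
    (fun b _ => mul_nonneg (Nat.cast_nonneg _) hlz0.le) hsumA
  set G := R.filter (fun b => ((A.filter (fun a => Pr b a)).card : ℝ) * Real.log z0 ≤
    2 * (C' * C1 * Real.log N)) with hG
  -- the positions
  set B : ℕ → Finset ℕ := fun b => (A.filter (fun a => Pr b a)).map E.toEmbedding with hB
  have hBmem : ∀ b k, k ∈ B b ↔ E.symm k ∈ A ∧ Pr b (E.symm k) := by
    intro b k
    rw [hB]
    simp only [Finset.mem_map_equiv, Finset.mem_filter]
  have hBA : ∀ b, ∀ k ∈ B b, E.symm k ≠ 0 ∧ (E.symm k).natAbs ≤ N := by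
    intro b k hk
    obtain ⟨h1, h2⟩ := hA _ ((hBmem b k).1 hk).1
    refine ⟨h2, ?_⟩
    have h3 : |E.symm k| = ((E.symm k).natAbs : ℤ) := Int.abs_eq_natAbs _
    rw [h3] at h1
    exact_mod_cast h1
  -- the core theorem in each good class
  have hmass : ∀ b ∈ G, c * (PsiT X / Q.totient) ≤ ∑ m ∈ (range (N + 1)).filter
      (fun m => ∀ k ∈ B b, ∃ p ∈ (PP z0 z2).erase ps, m % p = rh p k), wP X Q b m := by
    intro b hb
    rw [hG, Finset.mem_filter, hR, Finset.mem_filter, Finset.mem_range] at hb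
    obtain ⟨⟨hbQ, hbc⟩, hbB⟩ := hb
    have h1 := hcore X hXc z0 z2 z2 ps hKy1 hz0log rfl rfl (B b) rh kP (fun _ => 0) (wP X Q b)
      (⌊3 * X⌋₊ + 1) (PsiT X / Q.totient) err ?_ ?_ (dens_kP _ _ _) ?_ ?_ (hEq b hbc) ?_ hET ?_
    · rwa [hfl] at h1
    · rw [hB, Finset.card_map]
      refine hbB.trans ?_
      rw [hCc]
      have : C' * C1 * Real.log N ≤ C' * C1 * (2 * Real.log X) :=
        mul_le_mul_of_nonneg_left hlogN (by linarith)
      linarith
    · intro p hp k _
      exact rh_lt (prime_of_PP (Finset.mem_of_mem_erase hp)).1.pos k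
    · intro m
      unfold wP
      split_ifs
      · exact vv_nonneg X m
      · exact le_refl _
    · exact div_nonneg (by nlinarith) hphi.le
    · intro U hU hUK
      refine (dl_le hKy2 hN1 hUK (fun k hk => hBA b k (hU hk))).trans ?_
      refine le_trans ?_ hdl
      apply add_le_add (le_refl _)
      apply mul_le_mul_of_nonneg_left _ (by positivity)
      rw [div_le_div_iff₀ (by positivity) hlz0]
      have h5 : Real.log X ≤ 2000 * z0 := by
        have h6 : Real.log X / 1000 < (z0 : ℝ) + 1 := by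
          rw [hz0]
          unfold yy
          exact Nat.lt_floor_add_one _
        have h7 : (1 : ℝ) ≤ z0 := by exact_mod_cast (by omega : 1 ≤ z0)
        linarith
      have h8 : Real.log ((2 * N : ℕ) : ℝ) ≤ 4000 * z0 := by linarith
      calc Real.log ((2 * N : ℕ) : ℝ) * Real.log z0 ≤ (4000 * z0) * Real.log z0 :=
            mul_le_mul_of_nonneg_right h8 hlz0.le
        _ = _ := by ring
    · intro m hm _ k hk
      rw [hfl] at hm
      rcases hsize (z0 := z0) (z2 := z2) (ps := ps) (by omega : m ≤ N) (hBA b k hk).2 with h2 | h2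
      · left
        refine h2.trans ?_
        have h3 : ((2 * N : ℕ) : ℝ) = 6 * X := by push_cast; rw [hNX]; ring
        rw [h3]
        calc 6 * X ≤ X ^ (2 : ℕ) := hX3
          _ = X ^ (2 : ℝ) := by norm_cast
          _ ≤ X ^ Cc := Real.rpow_le_rpow_of_exponent_le (by linarith) (by linarith)
      · exact Or.inr h2
  -- good integers
  set good : ℕ → Prop := fun m => ∀ a ∈ A, ∃ p : ℕ, p.Prime ∧ p ≤ z2 ∧ (p : ℤ) ∣ (m : ℤ) - a
    with hgood
  have hcls := class_sum (M := N + 1) (Q := Q) G (vv X) (vv_nonneg X)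
    (fun b m => ∀ k ∈ B b, ∃ p ∈ (PP z0 z2).erase ps, m % p = rh p k) good (by
      intro b hb m _ hmb hgb a ha
      by_cases hPa : Pr b a
      · obtain ⟨p, hp, hpk⟩ := hgb (E a) ((hBmem b (E a)).2 (by
          rw [Equiv.symm_apply_apply]
          exact ⟨ha, hPa⟩))
        have hpp := prime_of_PP (Finset.mem_of_mem_erase hp)
        rw [rh_iff hpp.1.pos, Equiv.symm_apply_apply] at hpk
        exact ⟨p, hpp.1, hpp.2.2, hpk⟩
      · rw [hPr] at hPa
        push Not at hPa
        obtain ⟨p, hp, hpd⟩ := hPa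
        refine ⟨p, (PW_prop hp).1, (PW_prop hp).2.trans hyz, ?_⟩
        have h1 : (p : ℤ) ∣ (m : ℤ) - b := by
          have h2 : (p : ℤ) ∣ (Q : ℤ) := by
            exact_mod_cast Finset.dvd_prod_of_mem _ hp
          refine h2.trans ?_
          rw [← hmb, Int.natCast_mod]
          exact Int.dvd_self_sub_emod
        have h3 := dvd_add h1 hpd
        rwa [sub_add_sub_cancel] at h3)
  have hml := mass_le (z := z2) hN1 hXdef A good (by
    intro m hm a ha hpr
    obtain ⟨p, hp, hpz, hpd⟩ := hm a ha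
    have h1 : p ∣ ((m : ℤ) - a).natAbs := Int.natCast_dvd.1 hpd
    rw [Nat.prime_dvd_prime_iff_eq hp hpr] at h1
    rw [← h1]
    exact hpz)
  -- lower bound of the total mass
  have hlow : c * (c1 * X) / 2 ≤ ∑ b ∈ G, ∑ m ∈ (range (N + 1)).filter
      (fun m => ∀ k ∈ B b, ∃ p ∈ (PP z0 z2).erase ps, m % p = rh p k),
        (if m % Q = b then vv X m else 0) := by
    have h1 : ∀ b ∈ G, c * (PsiT X / Q.totient) ≤ ∑ m ∈ (range (N + 1)).filter
        (fun m => ∀ k ∈ B b, ∃ p ∈ (PP z0 z2).erase ps, m % p = rh p k),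
          (if m % Q = b then vv X m else 0) := by
      intro b hb
      refine (hmass b hb).trans (le_of_eq ?_)
      apply Finset.sum_congr rfl
      intro m hm
      have hbQ : b < Q := by
        rw [hG, Finset.mem_filter, hR, Finset.mem_filter, Finset.mem_range] at hb
        exact hb.1.1
      have hmN : m ≤ ⌊3 * X⌋₊ := by
        rw [hfl]
        have := Finset.mem_range.1 (Finset.mem_filter.1 hm).1
        omega
      unfold wP vv
      rw [Nat.mod_eq_of_lt hbQ]
      simp only [hmN, true_and]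
    refine le_trans ?_ (Finset.sum_le_sum h1)
    rw [Finset.sum_const, nsmul_eq_mul]
    rw [hRcard] at hhalf
    calc c * (c1 * X) / 2 ≤ c * PsiT X / 2 := by
          have := mul_le_mul_of_nonneg_left hPsi hc.le
          linarith
      _ = ((Q.totient : ℝ) / 2) * (c * (PsiT X / Q.totient)) := by
          field_simp
      _ ≤ (G.card : ℝ) * (c * (PsiT X / Q.totient)) := by
          apply mul_le_mul_of_nonneg_right hhalf
          have : 0 ≤ PsiT X := by nlinarith
          positivity
  -- the number of positions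
  have hAcard : (A.card : ℝ) ≤ C1 * Real.log N := by
    have h1 : (A.card : ℝ) ≤ ∑ a ∈ A, ((a.natAbs : ℝ) / (Nat.totient a.natAbs : ℝ)) := by
      rw [Finset.card_eq_sum_ones, Nat.cast_sum]
      apply Finset.sum_le_sum
      intro a ha
      have h2 : 0 < a.natAbs := Int.natAbs_pos.2 (hA a ha).2
      have h3 : (0 : ℝ) < a.natAbs.totient := by exact_mod_cast Nat.totient_pos.2 h2
      rw [Nat.cast_one, one_le_div h3]
      exact_mod_cast Nat.totient_le _
    exact h1.trans (hsum.trans (mul_le_mul_of_nonneg_right (le_max_left _ _) hlN))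
  have hAz : (A.card : ℝ) * ((2 * z2 + 1 : ℕ) * Real.log N) ≤
      C1 * Real.log N * ((2 * z2 + 1 : ℕ) * Real.log N) :=
    mul_le_mul_of_nonneg_right hAcard (by positivity)
  have hend := hlow.trans (hcls.trans hml)
  have h9 : c * (c1 * X) / 2 = 2 * (c * c1 / 12 * N) := by rw [hNX]; ring
  rw [h9] at hend
  rw [mul_div_assoc', div_le_iff₀ hlNpos]
  linarith

end Pool.Agent.H880R2.EN7
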